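import Pool.Agent.Y990.OA.Stm

/-!
# Project OA: isoperimetric inequality for small subsets of a box
-/

set_option autoImplicit false

namespace Pool.Agent.Y547.OA

open Pool.Agent.Y990.CB Pool.Agent.Y990.OA

/-- discrete intermediate value -/
theorem ivt (Q : ℤ → Prop) : ∀ (n : ℕ) (a b : ℤ), (b - a).natAbs = n → Q a → ¬ Q b →
    ∃ t t' : ℤ, min a b ≤ t ∧ t ≤ max a b ∧ |t' - t| = 1 ∧ Q t' ∧ ¬ Q t := by
  intro n
  induction n with
  | zero =>
    intro a b hab ha hb
    have : a = b := by omega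
    exact absurd (this ▸ ha) hb
  | succ n ih =>
    intro a b hab ha hb
    obtain ⟨e, he, he1, he2⟩ : ∃ e : ℤ, |e| = 1 ∧ (b - (a + e)).natAbs = n ∧
        (min a b ≤ a + e ∧ a + e ≤ max a b) := by
      rcases lt_or_ge a b with h | h
      · exact ⟨1, by norm_num, by omega, by omega, by omega⟩
      · exact ⟨-1, by norm_num, by omega, by omega, by omega⟩
    by_cases hq : Q (a + e)
    · obtain ⟨t, t', h1, h2, h3, h4, h5⟩ := ih (a + e) b he1 hq hb
      exact ⟨t, t', by omega, by omega, h3, h4, h5⟩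
    · refine ⟨a + e, a, he2.1, he2.2, ?_, ha, hq⟩
      rw [show a - (a + e) = -e by ring, abs_neg, he]

variable {d : ℕ}

theorem upd_mem {r : ℕ} {z : Z d} (hz : z ∈ Bf 0 r) (i : Fin d) {t : ℤ} (ht : |t| ≤ r) :
    Function.update z i t ∈ Bf 0 r := by
  rw [mem_Bf] at hz ⊢
  intro j
  by_cases hj : j = i
  · subst hj
    simpa using ht
  · rw [Function.update_of_ne hj]
    exact hz j

theorem upd_Nb (y : Z d) (i : Fin d) {t t' : ℤ} (h : |t' - t| = 1) :
    Nb (Function.update y i t') (Function.update y i t) := by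
  unfold Nb
  rw [Finset.sum_eq_single i]
  · simpa using h
  · intro j _ hj
    rw [Function.update_of_ne hj, Function.update_of_ne hj, sub_self, abs_zero]
  · intro h
    exact absurd (Finset.mem_univ i) h

theorem card_line (r : ℕ) (U : Finset (Z d)) (hU : U ⊆ Bf 0 r) (i : Fin d) :
    (U.image (fun z => Function.update z i 0)).card * (2 * r + 1) ≤
      (Bd r U).card * (2 * r + 1) + U.card := by
  obtain ⟨P, hP⟩ : ∃ P, P = U.image (fun z => Function.update z i 0) := ⟨_, rfl⟩
  have hy0 : ∀ y ∈ P, Function.update y i 0 = y := by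
    intro y hy
    rw [hP, Finset.mem_image] at hy
    obtain ⟨z, _, rfl⟩ := hy
    exact Function.update_idem _ _ _
  rw [← hP]
  have h1 : (P.filter (fun y => ∀ t ∈ Finset.Icc (-(r:ℤ)) r, Function.update y i t ∈ U)).card *
      (2 * r + 1) ≤ U.card := by
    have hc : (Finset.Icc (-(r:ℤ)) r).card = 2 * r + 1 := by
      rw [Int.card_Icc]
      omega
    rw [← hc, ← Finset.card_product]
    apply Finset.card_le_card_of_injOn (fun p : Z d × ℤ => Function.update p.1 i p.2)
    · rintro ⟨y, t⟩ h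
      rw [Finset.mem_coe, Finset.mem_product, Finset.mem_filter] at h
      exact h.1.2 t h.2
    · rintro ⟨y, t⟩ h ⟨y', t'⟩ h' heq
      rw [Finset.mem_coe, Finset.mem_product, Finset.mem_filter] at h h'
      simp only at heq
      have e1 : t = t' := by
        have := congrFun heq i
        simpa using this
      have e2 : y = y' := by
        rw [← hy0 y h.1.1, ← hy0 y' h'.1.1]
        have := congrArg (fun z => Function.update z i 0) heq
        simpa using this
      rw [e1, e2]
  have h2 : (P.filter (fun y => ¬ ∀ t ∈ Finset.Icc (-(r:ℤ)) r, Function.update y i t ∈ U)).card ≤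
      (Bd r U).card := by
    refine le_trans (Finset.card_le_card (t := (Bd r U).image (fun z => Function.update z i 0)) ?_)
      Finset.card_image_le
    intro y hy
    rw [Finset.mem_filter] at hy
    obtain ⟨hyP, hy2⟩ := hy
    push Not at hy2
    obtain ⟨b, hb, hbU⟩ := hy2
    rw [Finset.mem_Icc] at hb
    have hyy := hyP
    rw [hP, Finset.mem_image] at hyy
    obtain ⟨z, hz, hzy⟩ := hyy
    have hzB := hU hz
    have ha : Function.update y i (z i) ∈ U := by
      rw [← hzy, Function.update_idem, Function.update_eq_self]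
      exact hz
    have hza : |z i| ≤ r := by
      have := mem_Bf.1 hzB i
      simpa using this
    rw [abs_le] at hza
    obtain ⟨t, t', q1, q2, q3, q4, q5⟩ := ivt (fun t => Function.update y i t ∈ U) _ (z i) b rfl
      ha hbU
    have ht : |t| ≤ r := by
      rw [abs_le]
      omega
    rw [Finset.mem_image]
    refine ⟨Function.update y i t, ?_, ?_⟩
    · have hm : Function.update y i t ∈ Bf 0 r := by
        rw [← hzy, Function.update_idem]
        exact upd_mem hzB i ht
      unfold Bd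
      simp only [Finset.mem_filter]
      exact ⟨hm, q5, Function.update y i t', q4, upd_Nb y i q3⟩
    · rw [Function.update_idem]
      exact hy0 y hyP
  have h3 := Finset.card_filter_add_card_filter_not (s := P)
    (fun y => ∀ t ∈ Finset.Icc (-(r:ℤ)) r, Function.update y i t ∈ U)
  rw [← h3, add_mul]
  have := Nat.mul_le_mul_right (2 * r + 1) h2
  omega

theorem iso (h : S_lw) : S_iso := by
  intro d hd
  obtain ⟨C₁, hC₁, hlw⟩ := h d hd
  refine ⟨2 * C₁, ((2 * C₁) ^ d)⁻¹, by linarith, by positivity, ?_⟩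
  intro r U hU hcard
  have hd0 : d ≠ 0 := by omega
  have hdR : (2:ℝ) ≤ d := by exact_mod_cast hd
  obtain ⟨N, hN⟩ : ∃ N : ℝ, N = ((2 * r + 1 : ℕ) : ℝ) := ⟨_, rfl⟩
  rw [← hN] at hcard
  have hN0 : 0 < N := by rw [hN]; positivity
  obtain ⟨i, -, hi⟩ := Finset.exists_max_image (Finset.univ : Finset (Fin d))
    (fun i => (U.image (fun z => Function.update z i 0)).card) ⟨⟨0, by omega⟩, Finset.mem_univ _⟩
  obtain ⟨s, hs⟩ : ∃ s : ℝ, s = ((U.image (fun z => Function.update z i 0)).card : ℝ) := ⟨_, rfl⟩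
  have hs0 : 0 ≤ s := by rw [hs]; positivity
  have h1 := hlw U s hs0 (fun j => by rw [hs]; exact_mod_cast hi j (Finset.mem_univ j))
  have h2 : s * N ≤ (Bd r U).card * N + U.card := by
    have := card_line r U hU i
    rw [hs, hN]
    exact_mod_cast this
  obtain ⟨u, hu⟩ : ∃ u : ℝ, u = (U.card : ℝ) := ⟨_, rfl⟩
  rw [← hu] at h1 h2 hcard ⊢
  have hu0 : 0 ≤ u := by rw [hu]; positivity
  rcases hu0.eq_or_lt with h0 | h0
  · rw [← h0, Real.zero_rpow]
    · positivity
    · apply div_ne_zero _ (by positivity)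
      linarith
  have h3 : u ^ (((d : ℝ) - 1) / d) * u ^ ((d : ℝ)⁻¹) = u := by
    rw [← Real.rpow_add h0]
    have : ((d : ℝ) - 1) / d + (d : ℝ)⁻¹ = 1 := by
      field_simp
      ring
    rw [this, Real.rpow_one]
  have h4 : u ^ ((d : ℝ)⁻¹) ≤ N / (2 * C₁) := by
    have e1 : u ≤ (N / (2 * C₁)) ^ d := by
      rw [div_pow, div_eq_inv_mul]
      exact hcard
    have e2 := Real.rpow_le_rpow hu0 e1 (show 0 ≤ (d : ℝ)⁻¹ by positivity)
    rwa [Real.pow_rpow_inv_natCast (by positivity) hd0] at e2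
  obtain ⟨x, hx⟩ : ∃ x : ℝ, x = u ^ (((d : ℝ) - 1) / d) := ⟨_, rfl⟩
  rw [← hx] at h1 h3 ⊢
  have hx0 : 0 ≤ x := by rw [hx]; positivity
  have h5 : u ≤ x * (N / (2 * C₁)) := by
    calc u = x * u ^ ((d : ℝ)⁻¹) := h3.symm
      _ ≤ _ := mul_le_mul_of_nonneg_left h4 hx0
  have h6 : x * (N / (2 * C₁)) ≤ s / 2 * N := by
    have : x * (N / (2 * C₁)) = (x / C₁) * (N / 2) := by
      field_simp
    rw [this]
    have h7 : x / C₁ ≤ s := by
      rw [div_le_iff₀ (by linarith)]
      linarith
    calc x / C₁ * (N / 2) ≤ s * (N / 2) := mul_le_mul_of_nonneg_right h7 (by positivity)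
      _ = _ := by ring
  have h8 : s / 2 * N ≤ (Bd r U).card * N := by linarith
  have h9 : s / 2 ≤ (Bd r U).card := le_of_mul_le_mul_right h8 hN0
  calc x ≤ C₁ * s := h1
    _ = 2 * C₁ * (s / 2) := by ring
    _ ≤ 2 * C₁ * (Bd r U).card := mul_le_mul_of_nonneg_left h9 (by linarith)

end Pool.Agent.Y547.OA
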